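import Pool.Agent.Helper63.LP.Spec

set_option autoImplicit false

noncomputable section

open MeasureTheory Set Filter Topology
open scoped ENNReal

namespace Pool.Agent.Helper96.LP.B2G

open Pool.Agent.Helper77.LM Helper63.LP

variable {m : ℕ}

lemma core (m : ℕ) {r η : ℝ} (hr0 : 0 < r) (hr1 : r ≤ 1) (hη0 : 0 < η) (hη : η ≤ r / 3)
    (_hη2 : η ≤ 1 / 2) {K : Set (Fin (m + 1) → ℝ)} (hc : Convex ℝ K) (hcl : IsClosed K)
    (hsub : K ⊆ Dl (m + 1)) (hbig : ∀ x ∈ Dl (m + 1), (1 - η) • x ∈ K) (hcen : ctr m ∈ K)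
    (k : Fin (m + 1)) :
    ∃ (l : Fin (m + 1) → ℝ) (γ : ℝ), l ∈ stdSimplex ℝ (Fin (m + 1)) ∧ 1 - r ≤ l k ∧ 0 ≤ γ ∧
      γ ≤ η ∧ (∀ x ∈ K, 1 - bary x k.succ ≤ r / 3 → γ ≤ bary x 0) ∧
      gauge K l - 1 ≤ (1 + 2 * η) * (((m : ℝ) + 2) * γ) := by
  have hm : (0 : ℝ) ≤ m := Nat.cast_nonneg m
  -- compactness
  set S : Set (Fin (m + 1) → ℝ) := K ∩ {x | 1 - bary x k.succ ≤ r / 3} with hS
  have hScl : IsClosed {x : Fin (m + 1) → ℝ | 1 - bary x k.succ ≤ r / 3} :=
    isClosed_le (continuous_const.sub ((continuous_apply k.succ).comp continuous_bary))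
      continuous_const
  have hScomp : IsCompact S :=
    isCompact_Dl.of_isClosed_subset (hcl.inter hScl) fun x hx => hsub hx.1
  -- a point of S
  set v : Fin (m + 1) → ℝ := un (Pi.single k.succ 1) with hv
  have hbv : bary v = Pi.single k.succ 1 := bary_un _ (by simp)
  have hvD : v ∈ Dl (m + 1) := by
    intro i
    rw [hbv]
    by_cases h : i = k.succ
    · subst h; simp
    · rw [Pi.single_eq_of_ne h]
  have hx0K : (1 - η) • v ∈ K := hbig v hvD
  have hq : 0 ≤ η / ((m : ℝ) + 2) := by positivity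
  have hb1 : bary ((1 - η) • v) k.succ = (1 - η) + η / ((m : ℝ) + 2) := by
    rw [bary_smul, hbv, Pi.single_eq_same]
    push_cast
    ring
  have hb0 : bary ((1 - η) • v) 0 = η / ((m : ℝ) + 2) := by
    rw [bary_smul, hbv, Pi.single_eq_of_ne (Fin.succ_ne_zero k).symm]
    push_cast
    ring
  have hne : S.Nonempty := by
    refine ⟨(1 - η) • v, hx0K, ?_⟩
    change 1 - bary ((1 - η) • v) k.succ ≤ r / 3
    rw [hb1]; linarith
  obtain ⟨x, hxS, hmin⟩ := hScomp.exists_isMinOn hne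
    (f := fun x => bary x 0) ((continuous_apply 0).comp continuous_bary).continuousOn
  have hmin' : ∀ y ∈ S, bary x 0 ≤ bary y 0 := fun y hy => hmin hy
  set γ : ℝ := bary x 0 with hγ
  have hγ0 : 0 ≤ γ := hsub hxS.1 0
  have hγη : ((m : ℝ) + 2) * γ ≤ η := by
    have h1 : γ ≤ η / ((m : ℝ) + 2) := by
      have := hmin' _ (⟨hx0K, by
        change 1 - bary ((1 - η) • v) k.succ ≤ r / 3
        rw [hb1]; linarith⟩ : (1 - η) • v ∈ S)
      rwa [hb0] at this
    rw [le_div_iff₀ (by positivity)] at h1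
    linarith
  have hγ1 : γ ≤ η := by nlinarith
  set t : ℝ := ((m : ℝ) + 1) * γ with ht
  have ht0 : 0 ≤ t := by positivity
  have htη : t ≤ η := by
    have : t = ((m : ℝ) + 2) * γ - γ := by rw [ht]; ring
    linarith
  set y : Fin (m + 1) → ℝ := (1 - t) • x + t • ctr m with hy
  have hyK : y ∈ K := hc hxS.1 hcen (by linarith) ht0 (by ring)
  have hby : bary y = (1 - t) • bary x + t • bary (ctr m) := bary_add_smul _ _ (by ring)
  have hc0 : tt (ctr m) = 0 := by
    have := tt_smul_std (ctr_mem m) 1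
    rw [one_smul] at this
    rw [this]; simp
  have hy0 : bary y 0 = (1 - t) * γ := by
    rw [hby]
    simp only [Pi.add_apply, Pi.smul_apply, smul_eq_mul]
    rw [bary_zero (ctr m), hc0, mul_zero, add_zero]
  have hyi : ∀ i : Fin (m + 1), y i = (1 - t) * bary x i.succ + t * γ := by
    intro i
    have h1 : y i = bary y i.succ - bary y 0 := by simp
    have h2 : bary y i.succ = (1 - t) * bary x i.succ + γ := by
      rw [hby]
      simp only [Pi.add_apply, Pi.smul_apply, smul_eq_mul]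
      rw [bary_succ (ctr m), hc0, add_zero]
      simp only [ctr, ht]
      field_simp
    rw [h1, h2, hy0]; ring
  set s : ℝ := 1 - ((m : ℝ) + 2) * ((1 - t) * γ) with hs
  have hsη : 1 - s ≤ ((m : ℝ) + 2) * γ := by
    rw [hs]
    have : 0 ≤ ((m : ℝ) + 2) * (t * γ) := by positivity
    nlinarith
  have hs1 : s ≤ 1 := by
    rw [hs]
    have : 0 ≤ ((m : ℝ) + 2) * ((1 - t) * γ) :=
      mul_nonneg (by positivity) (mul_nonneg (by linarith) hγ0)
    linarith
  have hs2 : 1 - η ≤ s := by linarith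
  have hs0 : 0 < s := by linarith
  have hsum : ∑ i, y i = s := by
    have h1 : tt y = (1 - t) * γ := by rw [← bary_zero]; exact hy0
    unfold tt at h1
    push_cast at h1
    have h2 : ((m : ℝ) + 1 + 1) ≠ 0 := by positivity
    rw [div_eq_iff h2] at h1
    rw [hs]; linarith
  have hyn : ∀ i, 0 ≤ y i := by
    intro i
    rw [hyi]
    have := mul_nonneg (show (0 : ℝ) ≤ 1 - t by linarith) (hsub hxS.1 i.succ)
    have : 0 ≤ t * γ := by positivity
    linarith
  refine ⟨(1 / s) • y, γ, ⟨fun i => ?_, ?_⟩, ?_, hγ0, hγ1, fun z hz hz1 => hmin' z ⟨hz, hz1⟩, ?_⟩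
  · simp only [Pi.smul_apply, smul_eq_mul]
    exact mul_nonneg (by positivity) (hyn i)
  · simp only [Pi.smul_apply, smul_eq_mul, ← Finset.mul_sum]
    rw [hsum]; field_simp
  · simp only [Pi.smul_apply, smul_eq_mul]
    have h1 : 1 - r ≤ y k := by
      rw [hyi]
      have h2 : 1 - r / 3 ≤ bary x k.succ := by
        have : 1 - bary x k.succ ≤ r / 3 := hxS.2
        linarith
      have h3 : (1 - t) * (1 - r / 3) ≤ (1 - t) * bary x k.succ :=
        mul_le_mul_of_nonneg_left h2 (by linarith)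
      have h4 : 0 ≤ t * γ := by positivity
      nlinarith
    have h5 : y k ≤ 1 / s * y k := by
      have : 1 ≤ 1 / s := by rw [le_div_iff₀ hs0]; linarith
      nlinarith [hyn k]
    linarith
  · have hη1 : η < 1 := by linarith
    obtain ⟨_, _, hlow, hsm⟩ := gauge_facts hη0 hη1 hc hcl hsub hbig hcen
    have h1 : s • ((1 / s) • y) ∈ K := by
      rw [smul_smul, mul_one_div_cancel hs0.ne', one_smul]
      exact hyK
    have h2 := (hsm _ s hs0).1 h1
    by_contra hcon
    rw [not_le] at hcon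
    have h3 : 1 ≤ s * (1 + 2 * η) := by nlinarith
    have h4 : ((m : ℝ) + 2) * γ ≤ s * ((1 + 2 * η) * (((m : ℝ) + 2) * γ)) := by
      have : 0 ≤ ((m : ℝ) + 2) * γ := by positivity
      nlinarith
    have h5 := mul_lt_mul_of_pos_left hcon hs0
    nlinarith

theorem main' : S_B2G := by
  intro m r hr0 hr1
  refine ⟨min (r / 3) (1 / 2), 2, lt_min (by positivity) (by norm_num),
    (min_le_right _ _).trans_lt (by norm_num), two_pos, ?_⟩
  intro η K hη0 hη hK j k
  have hη1 : η ≤ r / 3 := hη.trans (min_le_left _ _)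
  have hη2 : η ≤ 1 / 2 := hη.trans (min_le_right _ _)
  set T : (Fin (m + 1) → ℝ) →ₗ[ℝ] (Fin (m + 1) → ℝ) := Tl (Equiv.swap 0 j) with hT
  set Kj : Set (Fin (m + 1) → ℝ) := (T : (Fin (m + 1) → ℝ) → (Fin (m + 1) → ℝ)) ⁻¹' K with hKj
  have hTc : Continuous (T : (Fin (m + 1) → ℝ) → (Fin (m + 1) → ℝ)) :=
    LinearMap.continuous_of_finiteDimensional _
  have hTT : ∀ x, T (T x) = x := by
    intro x
    rw [hT, Tl_Tl, Equiv.swap_mul_self, Tl_one]
  obtain ⟨l, γ, hl, hlk, hγ0, hγ1, hmin, hg⟩ := core m hr0 hr1 hη0 hη1 hη2 (K := Kj)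
    (hK.conv.linear_preimage T)
    (hK.closed.preimage hTc)
    (fun x hx => (Tl_mem (Equiv.swap 0 j)).1 (hK.sub hx))
    (fun x hx => by
      change T ((1 - η) • x) ∈ K
      rw [map_smul]
      exact hK.big _ ((Tl_mem (Equiv.swap 0 j)).2 hx))
    (hK.cen j) k
  refine ⟨l, γ, hl, hlk, hγ0, by linarith, fun x hx hx1 => ?_, hg⟩
  have h1 : T x ∈ Kj := by
    change T (T x) ∈ K
    rw [hTT]; exact hx
  have hb : bary (T x) = fun i => bary x (Equiv.swap 0 j i) := bary_Tl _ _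
  have h2 := hmin (T x) h1 (by rw [hb]; exact hx1)
  rw [hb] at h2
  simpa using h2

theorem main (_h1 : S_LB) : S_B2G := main'

end Pool.Agent.Helper96.LP.B2G

end
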